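import Pool.Agent.Q279.HR.Main

/-!
# MP_a90892_an: recurrence of the hyperextension on compact convex sets

Positive answer to Q1, for every (not necessarily complete or Hausdorff) locally convex space `X` over
`ℝ` or `ℂ`: for all `ℓ`, all Furstenberg families `A` and all continuous linear operators `f` on `X`,
the hyperextension of `f` on the nonempty compact sets `K(X)` is topologically `(ℓ, A)`-recurrent
if and only if its restriction to the nonempty compact convex sets `C(X)` is.

`K(X)` is Mathlib's `NonemptyCompacts X` with its Vietoris topology, whose basis consists of the sets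
`{K | K ⊆ U₁ ∪ ... ∪ U_N, K ∩ U_j ≠ ∅ for all j}`, `N ≥ 1`, `U_j` open
(`NonemptyCompacts.isTopologicalBasis`); `C(X)` is `CompactConvex X` (`Pool.Agent.Q279.HR.Main`),
with the induced topology.

Idea of the proof. Let `V(U₁, ..., U_N)` be a basic open set of `K(X)`. Let `r ≥ 1` be the
smallest number of vectors `s₁, ..., s_r` such that vectors `∑_j A_ij s_j ∈ U_i` (`i = 1, ..., N`)
exist with continuous linear operators `A_ij` which commute with `f` (`r ≤ N`). Let `C` and
`fⁿ(C), ..., f^(ℓn)(C)` be in a small neighbourhood of the simplex `Δ` with the vertices `s_j`. If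
some `c ∈ C` and `B c`, `B = f^(in)`, were close to two different points of `Δ`, then two of the
`s_j` could be replaced by the one vector `c`, against the minimality of `r`. So if `c_j ∈ C` is close
to `s_j`, so is `f^(in) c_j` for all `i ≤ ℓ`, and the finite set of the `∑_j A_ij c_j` stays in
`V(U₁, ..., U_N)` at the times `0, n, ..., ℓn`.
-/

set_option autoImplicit false

open Topology TopologicalSpace

namespace Pool.Agent.Results.MP_a90892_an.CompactConvexSets

open Pool.Agent.Q279.HR

universe u

/-- Let `f` be a continuous linear operator on a locally convex space `X` over `𝕜 = ℝ` or `ℂ`. For all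
`ℓ` and all Furstenberg families `A` the hyperextension of `f` on the nonempty compact subsets of `X`
is topologically `(ℓ, A)`-recurrent if and only if its restriction to the nonempty compact convex
subsets is. -/
theorem result (𝕜 : Type) [RCLike 𝕜] (X : Type u) [AddCommGroup X] [Module 𝕜 X] [Module ℝ X]
    [IsScalarTower ℝ 𝕜 X] [TopologicalSpace X] [IsTopologicalAddGroup X] [ContinuousSMul 𝕜 X]
    [LocallyConvexSpace ℝ X] (f : X →L[𝕜] X) (ℓ : ℕ) (A : Set (Set ℕ)) (hA : IsFurstenberg A) :
    Recurrent ℓ A (hyper f f.continuous) ↔ Recurrent ℓ A (hyperConvex (f.restrictScalars ℝ)) := by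
  have hsmul : ContinuousSMul ℝ X := ⟨by
    have h : (fun p : ℝ × X => p.1 • p.2) = fun p => (algebraMap ℝ 𝕜 p.1) • p.2 := by
      funext p
      exact (algebraMap_smul 𝕜 p.1 p.2).symm
    rw [h]
    exact ((continuous_algebraMap ℝ 𝕜).comp continuous_fst).smul continuous_snd⟩
  constructor
  · intro h U hU hne
    obtain ⟨V, hV, hVne, hsub⟩ := forward (f.restrictScalars ℝ) ℓ U hU hne
    exact hA.mono _ _ (h V hV hVne) hsub
  · intro h U hU hne
    obtain ⟨V, hV, hVne, hsub⟩ := backward (f.restrictScalars ℝ) ℓ U hU hne
    exact hA.mono _ _ (h V hV hVne) hsub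

end Pool.Agent.Results.MP_a90892_an.CompactConvexSets
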